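import Pool.Agent.MNT.StmtsG

/-!
# MNT, row PTB: norm of the generator
-/

set_option autoImplicit false

namespace Pool.Agent.MNT.H60

open Polynomial NumberField
open scoped Classical

/-- The conjugation `u + w Y ↦ u - w Y`. -/
noncomputable def cj {K : Type} [Field K] (f : K[X]) : H58Q.Q K f →+* H58Q.Q K f where
  toFun u := ⟨u.re, -u.im⟩
  map_one' := by
    ext1
    · rfl
    · change -(0 : K[X]) = 0
      exact neg_zero
  map_zero' := by
    ext1
    · rfl
    · change -(0 : K[X]) = 0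
      exact neg_zero
  map_add' a b := by
    ext1
    · simp
    · simp only [QuadraticAlgebra.im_add]
      ring
  map_mul' a b := by
    ext1
    · simp only [QuadraticAlgebra.re_mul]
      ring
    · simp only [QuadraticAlgebra.im_mul]
      ring

theorem cj_map {K : Type} [Field K] (f : K[X]) (x y : K) :
    (ptI f x y).map (cj f) = ptI f x (-y) := by
  unfold ptI
  rw [Ideal.map_span, Set.image_pair, Ideal.span_insert, Ideal.span_insert]
  have h1 : cj f ⟨X - C x, 0⟩ = ⟨X - C x, 0⟩ := by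
    change (⟨X - C x, -0⟩ : H58Q.Q K f) = ⟨X - C x, 0⟩
    rw [neg_zero]
  have h2 : cj f ⟨-C y, 1⟩ = -(⟨-C (-y), 1⟩ : H58Q.Q K f) := by
    ext1
    · change -C y = -(-C (-y))
      rw [C_neg]
      ring
    · rfl
  rw [h1, h2, Ideal.span_singleton_neg]

theorem ptb (hA : PtaStmt) : PtbStmt := by
  intro K _ f x y N h2 _ hy hy0 α hα
  have h1 : (ptI f x (-y)) ^ N = Ideal.span {cj f α} := by
    rw [← cj_map, ← Ideal.map_pow, hα, Ideal.map_span, Set.image_singleton]
  have h3 : Ideal.span {α * cj f α} = Ideal.span {(⟨X - C x, 0⟩ : H58Q.Q K f) ^ N} := by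
    rw [← Ideal.span_singleton_mul_span_singleton, ← hα, ← h1, ← mul_pow,
      hA K f x y h2 hy hy0, Ideal.span_singleton_pow]
  have hn : α * cj f α = ⟨α.re ^ 2 - f * α.im ^ 2, 0⟩ := by
    ext1
    · rw [QuadraticAlgebra.re_mul]
      change α.re * α.re + f * α.im * (-α.im) = _
      ring
    · rw [QuadraticAlgebra.im_mul]
      change α.re * (-α.im) + α.im * α.re + 0 * α.im * (-α.im) = _
      ring
  have hp : (⟨X - C x, 0⟩ : H58Q.Q K f) ^ N = ⟨(X - C x) ^ N, 0⟩ :=
    (map_pow (algebraMap K[X] (H58Q.Q K f)) (X - C x) N).symm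
  rw [hn, hp] at h3
  have hd : ∀ p q : K[X], Ideal.span {(⟨p, 0⟩ : H58Q.Q K f)} =
      Ideal.span {(⟨q, 0⟩ : H58Q.Q K f)} → q ∣ p := by
    intro p q h
    have h4 : (⟨p, 0⟩ : H58Q.Q K f) ∈ Ideal.span {(⟨q, 0⟩ : H58Q.Q K f)} := by
      rw [← h]
      exact Ideal.mem_span_singleton_self _
    obtain ⟨w, hw⟩ := Ideal.mem_span_singleton.1 h4
    refine ⟨w.re, ?_⟩
    have h5 := congrArg QuadraticAlgebra.re hw
    rw [QuadraticAlgebra.re_mul] at h5
    change p = q * w.re + f * 0 * w.im at h5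
    rw [h5]
    ring
  obtain ⟨u, hu⟩ := associated_of_dvd_dvd (hd _ _ h3.symm) (hd _ _ h3)
  obtain ⟨c, hc, hcu⟩ := Polynomial.isUnit_iff.1 u.isUnit
  refine ⟨c⁻¹, inv_ne_zero hc.ne_zero, ?_⟩
  have h6 : C c⁻¹ * C c = (1 : K[X]) := by
    rw [← C_mul, inv_mul_cancel₀ hc.ne_zero, C_1]
  rw [← hu, ← hcu]
  linear_combination (-(α.re ^ 2 - f * α.im ^ 2)) * h6

end Pool.Agent.MNT.H60
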