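import Pool.Agent.MNT.StmtsG

/-!
# MNT, row PEL: torsion gives a solution of the Pell equation
-/

set_option autoImplicit false

namespace Pool.Agent.MNT.H60

open Polynomial NumberField
open scoped Classical

theorem pel (hB : PtbStmt) (hC : PtcStmt) : PelStmt := by
  intro K _ f x y N h2 hf hy hy0 hT
  obtain ⟨hN, hP⟩ := hT
  obtain ⟨α, hα⟩ := hP.principal
  have hα' : (ptI f x y) ^ N = Ideal.span {α} := hα
  obtain ⟨c, hc, hn⟩ := hB K f x y N h2 hf hy hy0 α hα'
  have hre := hC K f x y N h2 hf hy hy0 hN α hα'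
  set u := α.re with hu
  set w := α.im with hw
  have hf0 : f ≠ 0 := by
    rintro rfl
    simp at hf
  have hu0 : u ≠ 0 := by
    intro h
    apply hre
    rw [h, eval_zero]
  have hXd : (C c * (X - C x) ^ N).natDegree = N := by
    rw [natDegree_C_mul hc, natDegree_pow, natDegree_X_sub_C, mul_one]
  have hXl : (C c * (X - C x) ^ N).leadingCoeff = c := by
    rw [leadingCoeff_mul, leadingCoeff_C, leadingCoeff_pow, leadingCoeff_X_sub_C, one_pow, mul_one]
  have hNd : N = (u ^ 2 - f * w ^ 2).natDegree := by rw [hn, hXd]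
  have hcl : c = (u ^ 2 - f * w ^ 2).leadingCoeff := by rw [hn, hXl]
  have hdl : (u ^ 2 + f * w ^ 2).natDegree = N ∧ (u ^ 2 + f * w ^ 2).leadingCoeff ^ 2 = c ^ 2 := by
    by_cases hw0 : w = 0
    · rw [hw0] at hn ⊢
      have h3 : u ^ 2 + f * 0 ^ 2 = C c * (X - C x) ^ N := by
        rw [← hn]
        ring
      rw [h3, hXd, hXl]
      exact ⟨rfl, rfl⟩
    · have hd1 : (u ^ 2).natDegree = 2 * u.natDegree := natDegree_pow u 2
      have hd2 : (f * w ^ 2).natDegree = f.natDegree + 2 * w.natDegree := by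
        rw [natDegree_mul hf0 (pow_ne_zero _ hw0), natDegree_pow]
      obtain ⟨k, hk⟩ := hf
      rcases lt_or_ge (u ^ 2).natDegree (f * w ^ 2).natDegree with h | h
      · have h7 : (u ^ 2 - f * w ^ 2).leadingCoeff = -(f * w ^ 2).leadingCoeff := by
          rw [sub_eq_add_neg, leadingCoeff_add_of_degree_lt
            (by rw [degree_neg]; exact degree_lt_degree h), leadingCoeff_neg]
        rw [hcl, h7, natDegree_add_eq_right_of_natDegree_lt h, leadingCoeff_add_of_degree_lt
            (degree_lt_degree h), neg_sq, hNd, natDegree_sub_eq_right_of_natDegree_lt h]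
        exact ⟨rfl, rfl⟩
      · have h' : (f * w ^ 2).natDegree < (u ^ 2).natDegree := by
          rw [hd1, hd2] at h ⊢
          omega
        rw [hcl, leadingCoeff_sub_of_degree_lt (degree_lt_degree h'),
          natDegree_add_eq_left_of_natDegree_lt h', leadingCoeff_add_of_degree_lt'
            (degree_lt_degree h'), hNd, natDegree_sub_eq_left_of_natDegree_lt h']
        exact ⟨rfl, rfl⟩
  refine ⟨u ^ 2 + f * w ^ 2, 2 * u * w, c, hN, hc, ?_, hdl.1, hdl.2, ?_⟩
  · rw [← hn]
    ring
  · have h3 := congrArg (Polynomial.eval x) hn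
    rw [eval_sub, eval_mul, eval_mul, eval_pow, eval_pow, eval_pow, eval_sub, eval_X, eval_C,
      eval_C, sub_self, zero_pow (by omega), mul_zero, sub_eq_zero] at h3
    rw [eval_add, eval_mul, eval_pow, eval_pow, ← h3, ← two_mul]
    exact mul_ne_zero h2 (pow_ne_zero _ hre)

end Pool.Agent.MNT.H60
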